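import Pool.Agent.X246.ACR.Vc
import Pool.Agent.X245.PFM.AcSens
import Pool.Agent.X245.PFM.Basic

/-!
# Weighted vertex cover is not hard to approximate under constant-depth reductions

The question asks whether a `c`-approximation algorithm with a constant ratio `c < 2` implies
`P = NP`, which would be shown by a reduction that maps an input `x` to a weighted graph and a number
`t` such that there is a cover of weight at most `t`, or no cover of weight less than `c t`. Here the
neighbourhood and the weight of each vertex, and the number `t`, are decoded from `b` bits (for example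
`b = O(D log N)` if the degrees are at most `D`), and every single bit is computed by a circuit of
its own, of depth `h`, with at most `S` gates.

1. If such a reduction shows hardness for `NP`, or only for parity, for a constant ratio `c > 1`, then
   `2 ^ ((X / b) ^ (1 / (h + 1)) / 24) ≤ 2 (h S N + 1)` for `X = (c - 1) τ γ N`, where the threshold `t`
   is at least the fraction `τ` of the maximal total weight. So already the circuits for the single
   bits are of exponential size, whatever the number of the vertices. The reduction may be randomised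
   and right only for a fraction `1 / 2 + γ` of all pairs of an input and a random choice.
2. For De Morgan formulas in place of the circuits of constant depth the size must be at least
   `((c - 1) τ γ N / b) ^ 2` (see `LowSensitivityReductions` in this folder). This is optimal up to a
   constant factor: formulas with `4 N ^ 2` literals are enough for a reduction of parity to a graph
   with three vertices (for `b = 1`, `τ = 1 / 3`, every ratio `c ≤ 2`, and all inputs).

The proof of 1: if a yes instance is changed into a no instance then the weight of the vertices with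
changed entries is at least `(c - 1) t`, and the average sensitivity of a function computed by a
circuit of depth `h` and size `S` is at most `(24 log (2 h S N)) ^ (h + 1)` (switching lemma).

Definitions used in the statement: `Covers`, `VcRight` (`Pool/Agent/X246/ACR/Vc.lean`), `Circuit`,
`nodeVal`, `nodeDepth`, `size` (`Pool/Agent/H568R2/Defs.lean`: circuits with NOT gates and AND and OR
gates of unbounded fan-in), `DeMorgan` (`Pool/Agent/X246/ACR/Form.lean`).
-/

set_option autoImplicit false

namespace Pool.Agent.Results.MP_cff830_lc.ConstantDepthReductions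

open Finset DomAC0 Pool.Agent.X246.ACR

open scoped Classical

/-- The number of ones of `x` is odd. -/
def IsOdd {N : ℕ} (x : Fin N → Bool) : Prop := Odd (univ.filter fun i => x i = true).card

/-- the neighbours in the graph with three vertices: a triangle or a path -/
def nb3 (z : Bool) (u : Fin 3) : Finset (Fin 3) :=
  if z = true then univ.erase u else if u = 0 then {1, 2} else {0}

theorem right3 (c : ℝ) (hc : c ≤ 2) (p : Prop) (z : Bool) (hz : z = true ↔ p) :
    VcRight c (1 / 3) (fun _ => 1) p (nb3 z) (fun _ => 1) 1 := by
  refine ⟨?_, ?_, fun _ => by norm_num, fun _ => le_rfl, by norm_num, ?_, ?_⟩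
  · cases z <;> decide
  · cases z <;> decide
  · intro hp
    have hz' : z = false := by
      cases z
      · rfl
      · exact absurd (hz.1 rfl) hp
    subst hz'
    refine ⟨{0}, ?_, by simp⟩
    unfold Covers
    decide
  · intro hp C hC
    have hz' : z = true := hz.2 hp
    subst hz'
    have h1 : 2 ≤ C.card := by
      have h2 : ∀ C : Finset (Fin 3), (∀ u v, v ∈ nb3 true u → u ∈ C ∨ v ∈ C) → 2 ≤ C.card := by
        decide
      exact h2 C hC
    have h2 : (2 : ℝ) ≤ C.card := by exact_mod_cast h1
    rw [sum_const, nsmul_eq_mul]
    linarith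

/-- (1) Let `c ≥ 1`, `τ ≥ 0`, `γ > 0`, `b ≥ 1` and let `ω ≥ 0` be bounds for the weights of the vertices
with a positive sum `W`. Suppose that the neighbourhood and the weight (in `[0, ω u]`) of every
vertex `u`, and the number `t ≥ τ W`, are decoded from `b` bits, each of them computed by a circuit of
depth at most `h` with at most `S` gates, and that for at least a fraction `1 / 2 + γ` of all pairs of
a random choice `ρ` and an input `x` they describe a weighted graph which has a vertex cover of weight
at most `t` (if `x` is even) or no vertex cover of weight less than `c t` (if `x` is odd). Then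
`2 ^ (((c - 1) τ γ N / b) ^ (1 / (h + 1)) / 24) ≤ 2 (h S N + 1)`.

(2) For every `c ≤ 2` there are such a reduction to graphs with three vertices and the weights `1`,
with `b = 1`, `τ = 1 / 3` and `t = 1`, which is right for all `x`, and a De Morgan formula with at most
`4 N ^ 2` literals which computes its bit. -/
theorem result :
    (∀ (N b h S : ℕ) (Ω V : Type) [Fintype Ω] [Nonempty Ω] [Fintype V] (c τ γ : ℝ) (ω : V → ℝ)
      (C : Ω → Option V → Fin b → Circuit (Fin N))
      (out : ∀ ρ r i, Fin N ⊕ Fin (C ρ r i).size)
      (nb : Ω → V → (Fin b → Bool) → Finset V) (w : Ω → V → (Fin b → Bool) → ℝ)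
      (t : Ω → (Fin b → Bool) → ℝ),
      1 ≤ b → (∀ ρ r i, (C ρ r i).nodeDepth (out ρ r i) ≤ h) → (∀ ρ r i, (C ρ r i).size ≤ S) →
      1 ≤ c → 0 ≤ τ → 0 < γ → (∀ u, 0 ≤ ω u) → 0 < ∑ u, ω u →
      (1 / 2 + γ) * (2 ^ N * Fintype.card Ω) ≤
        ((univ.filter fun p : Ω × (Fin N → Bool) => VcRight c τ ω (IsOdd p.2)
          (fun u => nb p.1 u fun i => (C p.1 (some u) i).nodeVal p.2 (out p.1 (some u) i))
          (fun u => w p.1 u fun i => (C p.1 (some u) i).nodeVal p.2 (out p.1 (some u) i))
          (t p.1 fun i => (C p.1 none i).nodeVal p.2 (out p.1 none i))).card : ℝ) →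
      (2 : ℝ) ^ (((c - 1) * τ * γ * N / b) ^ (1 / (h + 1 : ℝ)) / 24) ≤ 2 * (h * S * N + 1)) ∧
    (∀ (N : ℕ) (c : ℝ), c ≤ 2 → ∃ (F : DeMorgan (Fin N))
      (nb : Fin 3 → (Fin 1 → Bool) → Finset (Fin 3)), F.size ≤ 4 * N ^ 2 ∧
      ∀ x : Fin N → Bool, VcRight c (1 / 3) (fun _ => 1) (IsOdd x)
        (fun u => nb u fun _ => F.eval x) (fun _ => 1) 1) := by
  refine ⟨?_, ?_⟩
  · intro N b h S Ω V _ _ _ c τ γ ω C out nb w t hb hh hS hc hτ hγ hω hW hA
    obtain ⟨ρ, hρ⟩ := exists_index (fun ρ x => VcRight c τ ω (IsOdd x)
      (fun u => nb ρ u fun i => (C ρ (some u) i).nodeVal x (out ρ (some u) i))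
      (fun u => w ρ u fun i => (C ρ (some u) i).nodeVal x (out ρ (some u) i))
      (t ρ fun i => (C ρ none i).nodeVal x (out ρ none i))) γ hA
    have hX0 : 0 ≤ (c - 1) * τ * γ * N := by
      have : 0 ≤ c - 1 := by linarith
      positivity
    refine Pool.Agent.X245.PFM.size_bound N h b S hb _ hX0 fun s hs hcond => ?_
    refine vc_main hω hW hc hτ hγ (fun r i x => (C ρ r i).nodeVal x (out ρ r i)) (nb ρ) (w ρ) (t ρ)
      (fun r i => ?_) hρ
    refine Pool.Agent.X245.PFM.ac0_tsens (C ρ r i) (out ρ r i) h (hh ρ r i) hs ?_
    refine le_trans ?_ hcond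
    have h1 : ((C ρ r i).size : ℝ) ≤ S := by exact_mod_cast hS ρ r i
    have h2 : (0 : ℝ) ≤ h := Nat.cast_nonneg _
    have h3 : (0 : ℝ) ≤ N := Nat.cast_nonneg _
    exact mul_le_mul_of_nonneg_right (mul_le_mul_of_nonneg_left h1 h2) h3
  · intro N c hc
    obtain ⟨F, hF, hF'⟩ := Pool.Agent.X245.PFM.parity_formula N
    exact ⟨F, fun u z => nb3 (z 0) u, hF, fun x => right3 c hc _ _ (hF' x)⟩

end Pool.Agent.Results.MP_cff830_lc.ConstantDepthReductions
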