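import Pool.Agent.X246.ACR.Vc

/-!
# Hardness of weighted vertex cover needs reductions of high average sensitivity

The question asks whether a `c`-approximation algorithm with a constant ratio `c < 2` implies
`P = NP`, which would be shown by a reduction that maps an input `x` to a weighted graph and a number
`t` such that there is a cover of weight at most `t`, or no cover of weight less than `c t`. Here the
neighbourhood and the weight of each vertex, and the number `t`, are arbitrary functions of `s` Boolean
functions of `x` (for example of the bits which encode them: `s = O(D log N)` if the degrees are at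
most `D`). It is proved that if such a reduction shows hardness for `NP`, or only for parity, for any
constant ratio `c > 1`, then `s` times the maximal average sensitivity of these functions is at least
a constant times `N`, also if the reduction is correct only for slightly more than half of the inputs
(in particular for randomised reductions with bounded error). This excludes, for graphs of bounded
degree, reductions with

* halfspaces (with arbitrary weights) or other unate functions as bits,
* polynomial threshold functions of bounded degree as bits,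
* bits that are computed by circuits of any size with less than `½ log₂ N - log₂ s - O(1)` NOT gates,
  or `log₂ N - log₂ s - O(1)` NOT gates if the reduction is correct for all inputs,
* bits that are computed by De Morgan formulas of size `o(N² / s²)`.

Definitions used in the statement: `Covers`, `VcRight` (`Pool/Agent/X246/ACR/Vc.lean`), `Unate`
(`Mono.lean`), `NegComp`, `stair` (`NegMain.lean`), `DeMorgan` (`Form.lean`).
-/

set_option autoImplicit false

namespace Pool.Agent.Results.MP_cff830_lc.LowSensitivityReductions

open Finset Pool.Agent.X246.ACR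

open scoped Classical

/-- The average sensitivity. -/
noncomputable def avgSens {N : ℕ} (f : (Fin N → Bool) → Bool) : ℝ :=
  (∑ x : Fin N → Bool,
    ((univ.filter fun i => f (Function.update x i (!x i)) ≠ f x).card : ℝ)) / 2 ^ N

/-- `f` is a polynomial threshold function of degree at most `k`. -/
def IsPTF {N : ℕ} (k : ℕ) (f : (Fin N → Bool) → Bool) : Prop :=
  ∃ P : MvPolynomial (Fin N) ℝ, P.totalDegree ≤ k ∧
    ∀ x, f x = true ↔ 0 ≤ MvPolynomial.eval (fun i => if x i = true then (1 : ℝ) else 0) P

/-- The number of ones of `x` is odd. -/
def IsOdd {N : ℕ} (x : Fin N → Bool) : Prop := Odd (univ.filter fun i => x i = true).card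

/-- (1) Let `c ≥ 1`, `τ ≥ 0`, `γ > 0` and let `ω ≥ 0` be bounds for the weights of the vertices with a
positive sum `Ω`. Suppose that the neighbourhood and the weight (in `[0, ω u]`) of every vertex `u`,
and the number `t ≥ τ Ω`, are functions of `s` functions of average sensitivity at most `a`, and that
for at least a fraction `1 / 2 + γ` of the inputs `x` they describe a weighted graph which has a
vertex cover of weight at most `t` (if `x` is even) or no vertex cover of weight less than `c t` (if
`x` is odd). Then `s a ≥ (c - 1) τ γ N`.

(2) - (5) The average sensitivity is at most `√N` for unate functions, `2 N ^ (1 - 1 / 2 ^ k)` for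
polynomial threshold functions of degree at most `k`, `(2 ^ (n + 1) - 1) √N` for functions computed
with `n` NOT gates and monotone gates, and `√S` for functions computed by De Morgan formulas with `S`
literals.

(6) If in (1) the functions are computed with `n` NOT gates and the instances are right for the
`N + 1 ≥ 2` inputs `1 ^ j 0 ^ (N - j)` then `(c - 1) τ N ≤ 2 s (2 ^ (n + 1) - 1)`. -/
theorem result :
    (∀ (N s : ℕ) (V : Type) [Fintype V] (c τ γ a : ℝ) (ω : V → ℝ)
      (f : Option V → Fin s → (Fin N → Bool) → Bool)
      (nb : V → (Fin s → Bool) → Finset V) (w : V → (Fin s → Bool) → ℝ) (t : (Fin s → Bool) → ℝ),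
      1 ≤ c → 0 ≤ τ → 0 < γ → (∀ u, 0 ≤ ω u) → 0 < ∑ u, ω u → (∀ u i, avgSens (f u i) ≤ a) →
      (1 / 2 + γ) * 2 ^ N ≤ ((univ.filter fun x : Fin N → Bool =>
        VcRight c τ ω (IsOdd x) (fun u => nb u fun i => f (some u) i x)
          (fun u => w u fun i => f (some u) i x) (t fun i => f none i x)).card : ℝ) →
      (c - 1) * τ * γ * N ≤ s * a) ∧
    (∀ (N : ℕ) (f : (Fin N → Bool) → Bool), Unate f → avgSens f ≤ √N) ∧
    (∀ (N k : ℕ) (f : (Fin N → Bool) → Bool), 1 ≤ N → IsPTF k f →
      avgSens f ≤ 2 * (N : ℝ) ^ (1 - 1 / 2 ^ k : ℝ)) ∧
    (∀ (N n : ℕ) (f : (Fin N → Bool) → Bool), NegComp n f →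
      avgSens f ≤ (2 ^ (n + 1) - 1) * √N) ∧
    (∀ (N : ℕ) (F : DeMorgan (Fin N)), avgSens (fun x => F.eval x) ≤ √F.size) ∧
    (∀ (N s n : ℕ) (V : Type) [Fintype V] (c τ : ℝ) (ω : V → ℝ)
      (f : Option V → Fin s → (Fin N → Bool) → Bool)
      (nb : V → (Fin s → Bool) → Finset V) (w : V → (Fin s → Bool) → ℝ) (t : (Fin s → Bool) → ℝ),
      1 ≤ c → 0 ≤ τ → 1 ≤ N → (∀ u, 0 ≤ ω u) → 0 < ∑ u, ω u → (∀ u i, NegComp n (f u i)) →
      (∀ j ≤ N, VcRight c τ ω (IsOdd (stair N j)) (fun u => nb u fun i => f (some u) i (stair N j))
          (fun u => w u fun i => f (some u) i (stair N j)) (t fun i => f none i (stair N j))) →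
      (c - 1) * τ * N ≤ 2 * s * (2 ^ (n + 1) - 1)) := by
  refine ⟨?_, ?_, ?_, ?_, ?_, ?_⟩
  · intro N s V _ c τ γ a ω f nb w t hc hτ hγ hω hΩ hf hA
    exact vc_main hω hΩ hc hτ hγ f nb w t
      (fun u i => by
        have h1 := hf u i
        unfold avgSens at h1
        rw [div_le_iff₀ (by positivity)] at h1
        unfold tsens
        rw [mul_comm]
        exact h1) hA
  · intro N f hf
    unfold avgSens
    rw [div_le_iff₀ (by positivity), mul_comm]
    exact unate_tsens hf
  · rintro N k f hN ⟨P, hP, hf⟩
    unfold avgSens
    rw [div_le_iff₀ (by positivity), mul_comm]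
    exact ptf_sens hN k f ⟨_, deg_eval P k hP, hf⟩
  · intro N n f hf
    unfold avgSens
    rw [div_le_iff₀ (by positivity), mul_comm]
    exact neg_tsens hf
  · intro N F
    unfold avgSens
    rw [div_le_iff₀ (by positivity), mul_comm]
    exact form_tsens F
  · intro N s n V _ c τ ω f nb w t hc hτ hN hω hΩ hf hA
    exact vc_stair hω hΩ hc hτ hN f nb w t hf hA

end Pool.Agent.Results.MP_cff830_lc.LowSensitivityReductions
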