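import Pool.Agent.X240.SH.GapVc

/-!
# Reductions to the approximation of weighted vertex cover are slow

The question asks whether a polynomial-time `c`-approximation of weighted vertex cover with `c < 2`
implies `P = NP`, which would be shown by reductions from all problems in `NP` to the problem to
distinguish weighted graphs with a vertex cover of weight at most `t` from those all of whose covers
have weight at least `c t`. Here the source is the set of the directed graphs with `V` vertices, given
by their adjacency matrices as words of `n = V ^ 2` bits, which have an odd number of cycles of length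
two (`twoCycles`), and a reduction is computed by a nonuniform transducer (`Transducer`) with `k`
two-way heads, which move by at most one position in a step, and at most `2 ^ S` configurations; in
every step it may write any number of records. A record is a vertex with its weight, an edge, or the
number `t > 0`; each vertex and `t` are written exactly once, in any order. The written graph has
vertices in any set `A`, its degrees are at most `D` (loops and multiple edges are allowed), and its
weights are nonnegative real numbers. The reduction may be randomized: for every input the output of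
the first `T` steps is right with probability at least `2 / 3`.

It is proved that `((c - 1) / (c D)) ^ 2 V ^ 6 ≤ 5 * 10 ^ 9 k (S + 1) (k T + V ^ 2) ^ 2` for every
`c > 1`. So for constant `c > 1`, `D`, `k` we have `T ≥ const V ^ 3 / sqrt (S + 1)`, which is
`n ^ (3 / 2 - o(1))` for `S = n ^ o(1)`.

Proof. The upper right and the lower left quarter of the matrix are filled with bits `x i c`, row by
row, and `y i c`, column by column, so that the answer is their inner product modulo two. Divide the
input into zones and the time into windows. For most zones `b` of the second part the transcript of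
`b` (the configurations at the beginning and at the end of the windows in which `b` is visited) is
short, and only a small part of the instance is written in these windows, where the edge `{u, v}`
counts with the smaller weight of its ends and a vertex with the sum of these numbers for all its
edges; the sum `s` of all these numbers is at most `D` times the weight of any cover. If a graph has a
cover of weight at most `t` and if another graph agrees with it outside of the windows then it has, up
to a small part of `s`, a cover of the same weight, and `t` is the same. The inputs with the same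
transcript of `b` form, for the bits of `b` and of the zones which are not visited in these windows, a
rectangle, and the records which are written outside of the windows are functions of the first matrix
only. So the answer is for most inputs a function of the first matrix only, which contradicts the
lemma of Lindsey (`Pool.Agent.X240.SH.GapE`, `GapE2`, `GapM`, `GapVc`).
-/

set_option autoImplicit false

namespace Pool.Agent.Results.MP_cff830_lc.SlowHeadReductions

open Finset Pool.Agent.X240.SH

/-- Let `p`, `R` be a random transducer with `k ≥ 1` two-way heads for words of `V ^ 2` bits and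
with at most `2 ^ S` configurations. If for all directed graphs `a` with `V ≥ 2` vertices the output of
the first `T` steps is with probability at least `2 / 3` a list of the records of a weighted graph with
degrees at most `D` and of a number `t > 0` such that there is a vertex cover of weight at most `t` (if
`a` has an odd number of cycles of length two), or all vertex covers have weight at least `c t`
(otherwise), `c > 1`, then
`((c - 1) / (c * D)) ^ 2 * V ^ 6 ≤ 5000000000 * k * (S + 1) * (k * T + V ^ 2) ^ 2`. -/
theorem result (V k T S D : ℕ) (A Ω : Type) [Fintype Ω] (c : ℝ) (p : Ω → ℝ)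
    (R : Ω → Transducer Bool (VRec A) (V * V) k)
    (hp : ∀ ω, 0 ≤ p ω) (hp1 : ∑ ω, p ω = 1) (hV : 2 ≤ V) (hk : 1 ≤ k) (hD : 1 ≤ D) (hc : 1 < c)
    (hS : ∀ ω, Fintype.card (R ω).Q * (V * V) ^ k ≤ 2 ^ S)
    (hyes : ∀ a : Fin V → Fin V → Bool, twoCycles a % 2 = 1 →
      2 / 3 ≤ probOut p R T (gword V a) (VcYes D))
    (hno : ∀ a : Fin V → Fin V → Bool, twoCycles a % 2 = 0 →
      2 / 3 ≤ probOut p R T (gword V a) (VcNo D c)) :
    ((c - 1) / (c * D)) ^ 2 * V ^ 6 ≤ 5000000000 * (k * (S + 1) * (k * T + V ^ 2) ^ 2) := by
  have hDr : (1 : ℝ) ≤ D := by exact_mod_cast hD
  have hcD : 0 < c * D := by positivity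
  obtain ⟨g, hg⟩ : ∃ g, g = (c - 1) / (c * D) := ⟨_, rfl⟩
  have hg0 : 0 < g := by
    rw [hg]
    exact div_pos (by linarith) hcD
  have hgc : g * (c * D) = c - 1 := by
    rw [hg]
    exact div_mul_cancel₀ _ hcD.ne'
  have hg1 : g ≤ 1 := by
    rw [hg, div_le_one hcD]
    nlinarith
  obtain ⟨m, hm⟩ : ∃ m, m = ⌊4 / g⌋₊ + 1 := ⟨_, rfl⟩
  have hm1 : 1 ≤ m := by rw [hm]; exact Nat.le_add_left 1 _
  have hmg : 4 < m * g := by
    have h1 := Nat.lt_floor_add_one (4 / g)
    rw [div_lt_iff₀ hg0] at h1
    rw [hm]
    push_cast
    exact h1
  have hmu : m * g ≤ 5 := by
    have h1 := Nat.floor_le (show 0 ≤ 4 / g by positivity)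
    rw [hm]
    push_cast
    have h2 : (⌊4 / g⌋₊ : ℝ) * g ≤ 4 := by
      rw [le_div_iff₀ hg0] at h1
      exact h1
    linarith
  have hb := GapM.gap_bound V k T S m p hp hp1 R hV hk hm1 (VcYes D) (VcNo D c)
    (fun y t => GapVc.wtV D y t) (fun y t => GapVc.wtV_nonneg D y t) (by
      intro y z J hJ _ h2 h3 h4
      refine GapVc.gap_vc D m c hc ?_ y z J hJ h2 h3 h4
      calc 4 * D * c = 4 * (c * D) := by ring
        _ < m * g * (c * D) := mul_lt_mul_of_pos_right hmg hcD
        _ = m * (g * (c * D)) := by ring
        _ = m * (c - 1) := by rw [hgc])
    hyes hno hS
  rw [← hg]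
  have hb' : ((V ^ 6 : ℕ) : ℝ) ≤
      ((200000000 * (m ^ 2 * k * (S + 1) * (k * T + V ^ 2) ^ 2) : ℕ) : ℝ) := by
    exact_mod_cast hb
  push_cast at hb'
  calc g ^ 2 * (V : ℝ) ^ 6 ≤ g ^ 2 * (200000000 * ((m : ℝ) ^ 2 * k * (S + 1) *
        (k * T + V ^ 2) ^ 2)) := mul_le_mul_of_nonneg_left hb' (by positivity)
    _ = 200000000 * (m * g) ^ 2 * (k * (S + 1) * (k * T + V ^ 2) ^ 2) := by ring
    _ ≤ 200000000 * 5 ^ 2 * (k * (S + 1) * (k * T + V ^ 2) ^ 2) := by
        apply mul_le_mul_of_nonneg_right _ (by positivity)
        apply mul_le_mul_of_nonneg_left _ (by norm_num)
        exact pow_le_pow_left₀ (by positivity) hmu 2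
    _ = 5000000000 * (k * (S + 1) * (k * T + V ^ 2) ^ 2) := by norm_num

end Pool.Agent.Results.MP_cff830_lc.SlowHeadReductions
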