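import Pool.Agent.X240.TNV.Main

/-!
# Vertex cover below any constant ratio is hard for read-once tensor networks

A tree tensor network `Net K V A W` (`Pool/Agent/TH700/PA/Defs.lean`) has leaves that read one
symbol of the alphabet `A` each (with a vector in `K ^ W` for each symbol); an inner node combines
the vectors of its two children by an arbitrary bilinear map. It accepts the input `x` if a linear
form of the vector of the root is not zero. The field `K` and the weights are arbitrary, so there
may be cancellations. The tree is arbitrary; if every right child is a leaf then this is a matrix
product (a weighted ordered read-once branching program, for any order of the pairs). The bond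
dimension is `card W`. The inputs are the graphs with `n` vertices; a leaf reads whether a pair of
vertices is an edge.

(1) Let `g ≥ 1`, `h ≥ 2`. For `n ≥ 2 ^ 19 (g ^ 2 h) ^ 4` networks with any number of nodes, which read
every pair at most once, accept all graphs with a vertex cover of at most `n / h` vertices and reject
all graphs all of whose vertex covers have at least `(1 - 1 / g) n` vertices have bond dimension at
least `2 ^ (n / (2 ^ 11 (g ^ 2 h) ^ 2))`. This holds up to the factor `2 ^ μ` also for random networks
which never accept a graph of the second kind and accept every graph of the first kind with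
probability at least `2 ^ (- μ)` (the deterministic case is `R = Unit`, `μ = 0`). For `h = 2` this is
the ratio `2 - 2 / g`, and every constant ratio can be reached.

(2) Conversely the number of the vertex covers with at most `n / h` vertices is computed by a linear
network over `ℚ` with `n (n - 1) - 1` nodes and bond dimension `2 ^ n` which reads every pair once.

Proof of (1): The nodes of the tree give a partition of the pairs into `t = 576 (g ^ 2 h) ^ 2 + 1`
parts, each of them read between at most three nodes, such that no part contains more than `2 y ^ 2`
pairs, `y = n / (12 g ^ 2 h)`. Every part has rank at most the cube of the bond dimension. Take for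
each part a random set which contains each vertex with probability `1 / h`; the edges in the part are
the pairs which touch its set. If the mixture has an independent set of more than `n / g` vertices
then `3 h n` pairs (part, vertex of the independent set) must avoid these random sets, which has
probability at most `2 ^ (- 3 n)`. On the other hand the graph of one random set has a cover of at
most `n / h` vertices with probability at least `1 / h`, and by the replacement lemma of the library
(`Pool/Agent/TH700/PA/`) among any `t * rank + 1` accepted graphs some mixture of different ones is
accepted. Count all families of that many graphs.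
-/

set_option autoImplicit false

namespace Pool.Agent.Results.MP_cff830_lc.TensorNetworks

open Pool.Agent.TH700.PA Pool.Agent.X240.TNV

theorem result :
    (∀ g h n : ℕ, 1 ≤ g → 2 ≤ h → 2 ^ 19 * (g ^ 2 * h) ^ 4 ≤ n →
      ∀ (μ : ℕ) (R : Type) [Fintype R] [Nonempty R] (K W : R → Type) [∀ ρ, Field (K ρ)]
        [∀ ρ, Fintype (W ρ)] (T : ∀ ρ, Net (K ρ) (Pair n) Bool (W ρ))
        (a : ∀ ρ, W ρ → K ρ),
        (∀ ρ e, (T ρ).reads e ≤ 1) →
        (∀ ρ x, LargeCovers g x → (T ρ).value (a ρ) x = 0) →
        (∀ x, SmallCover h x →
          Nat.card R ≤ 2 ^ μ * Nat.card {ρ // (T ρ).value (a ρ) x ≠ 0}) →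
        ∃ ρ, 2 ^ n ≤ (2 ^ μ * Fintype.card (W ρ)) ^ (2 ^ 11 * (g ^ 2 * h) ^ 2)) ∧
    (∀ h n : ℕ, 2 ≤ n →
      ∃ (T : Net ℚ (Pair n) Bool (Finset (Fin n))) (a : Finset (Fin n) → ℚ),
        T.Linear ∧ (∀ e, T.reads e = 1) ∧ T.size + 1 = n * (n - 1) ∧
          ∀ x, T.value a x ≠ 0 ↔ SmallCover h x) :=
  ⟨fun g h n hg hh hn μ R _ _ K W _ _ T a h1 h2 h3 => main_vc g h n hg hh hn μ R K W T a h1 h2 h3,
    upper_vc⟩

end Pool.Agent.Results.MP_cff830_lc.TensorNetworks
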